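import Pool.Agent.Lib.MP_bb9e9d_lc.Main

set_option autoImplicit false

/-! # Problem MP_bb9e9d_lc: satisfiability in circumscribed `DL-Lite_bool^F` with fixed roles

Satisfiability of a concept with respect to a circumscribed `DL-Lite_bool^F` knowledge base in which
role names are fixed or varying but not minimized is NEXP-complete under polynomial-time many-one
reductions, for both readings of the unique name assumption (`u = false`: for the individual names
of the ABox; `u = true`: for all individual names).

The definitions are in `Pool.Agent.Lib.MP_bb9e9d_lc.Defs` (syntax, semantics, circumscription,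
`SAT`, `InNEXP`, `NEXPComplete`) and `Pool.Agent.Lib.MP_634427_lc.Model` (polynomial time). -/

namespace Pool.Agent.Results.MP_bb9e9d_lc.NexpComplete

open Pool.Agent.Lib.MP_bb9e9d_lc

/-- SAT is NEXP-complete. -/
theorem result (u : Bool) : NEXPComplete (SAT u) := sat_complete u

end Pool.Agent.Results.MP_bb9e9d_lc.NexpComplete
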